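import Pool.Agent.Helper58.RS.Unbalanced

/-!
# MP_7ef5a1_co: unbalanced connected bipartite graphs are 2-Ramsey-simple
-/

set_option autoImplicit false
open Classical

namespace Pool.Agent.Helper58.Old.UnbalancedBipartite

theorem result :
    ∀ a : ℕ, ∃ K : ℕ, ∀ (m : ℕ) (H : SimpleGraph (Fin m)) (A : Finset (Fin m)),
      2 ≤ m → H.Connected → (∀ u v : Fin m, H.Adj u v → (u ∈ A ↔ v ∉ A)) → A.card = a →
      K * ((Aᶜ.filter (fun v => H.minDegree < H.degree v)).card + 1) ≤ Aᶜ.card →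
      sInf {d : ℕ | ∃ (n : ℕ) (G : SimpleGraph (Fin n)),
        (∀ c : Sym2 (Fin n) → Fin 2, ∃ i : Fin 2, ∃ f : Fin m → Fin n,
          Function.Injective f ∧
          ∀ u v : Fin m, H.Adj u v → G.Adj (f u) (f v) ∧ c s(f u, f v) = i) ∧
        (∀ (S : Set (Fin n)) (G' : SimpleGraph (Fin n)), G' ≤ G →
          (∀ a b : Fin n, G'.Adj a b → a ∈ S ∧ b ∈ S) →
          (S ≠ Set.univ ∨ G' ≠ G) →
          ∃ c : Sym2 (Fin n) → Fin 2, ∀ i : Fin 2, ∀ f : Fin m → Fin n,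
            Function.Injective f → (∀ x : Fin m, f x ∈ S) →
            ∃ u v : Fin m, H.Adj u v ∧
              ¬ (G'.Adj (f u) (f v) ∧ c s(f u, f v) = i)) ∧
        G.minDegree = d} = 2 * (H.minDegree - 1) + 1 :=
  Pool.Agent.Helper58.RS.unbalanced

end Pool.Agent.Helper58.Old.UnbalancedBipartite
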